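import Pool.Agent.Q7.CJ.Stm

/-!
# Project CJ, job RT: the sum of two trivial symbols
-/

set_option autoImplicit false

namespace Pool.Agent.Q198.CJ

open Polynomial Pool.Agent.Q7.CJ
open scoped TensorProduct

section

variable {K : Type} [Field K]

/-- the trace of a nontrivial twist is zero -/
theorem trace_zero {W : Type} [AddCommGroup W] [Module K W] (Q U U' : Module.End K W) (c : K) (hc : c ≠ 1)
    (hU : U' * U = 1) (hU2 : U * U' = 1) (h : Q * U = c • (U * Q)) : LinearMap.trace K W Q = 0 := by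
  have h1 : U' * (Q * U) = c • Q := by
    rw [h, mul_smul_comm, ← mul_assoc, hU, one_mul]
  have h2 : LinearMap.trace K W (U' * (Q * U)) = LinearMap.trace K W Q := by
    rw [LinearMap.trace_mul_comm, mul_assoc, hU2, mul_one]
  rw [h1, map_smul, smul_eq_mul] at h2
  have h3 : (c - 1) * LinearMap.trace K W Q = 0 := by
    rw [sub_mul, one_mul, h2, sub_self]
  exact (mul_eq_zero.1 h3).resolve_left (sub_ne_zero.2 hc)

theorem tw_pow {R : Type} [Ring R] [Algebra K R] (X Y : R) (c : K) (h : Y * X = c • (X * Y)) (n : ℕ) :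
    Y ^ n * X = c ^ n • (X * Y ^ n) := by
  induction n with
  | zero => simp
  | succ n ih =>
    rw [pow_succ, mul_assoc, h, mul_smul_comm, ← mul_assoc, ih, smul_mul_assoc, smul_smul, mul_assoc, pow_succ']

theorem tw_mul_pow {R : Type} [Ring R] [Algebra K R] (X Y : R) (c : K) (h : Y * X = c • (X * Y)) (n : ℕ) :
    (X * Y) ^ n = c ^ (n * (n - 1) / 2) • (X ^ n * Y ^ n) := by
  induction n with
  | zero => simp
  | succ n ih =>
    rw [pow_succ, ih, smul_mul_assoc]
    have h1 : X ^ n * Y ^ n * (X * Y) = c ^ n • (X ^ (n + 1) * Y ^ (n + 1)) := by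
      rw [mul_assoc, ← mul_assoc (Y ^ n), tw_pow X Y c h, smul_mul_assoc, mul_smul_comm, pow_succ X, pow_succ Y]
      simp only [mul_assoc]
    rw [h1, smul_smul, ← pow_add]
    congr 2
    rw [Nat.add_sub_cancel]
    have h2 : (n + 1) * n = n * (n - 1) + 2 * n := by
      cases n with
      | zero => rfl
      | succ m => rw [Nat.add_sub_cancel]; ring
    rw [h2, Nat.add_mul_div_left _ _ (by norm_num)]

/-- the fixed space of an operator of order `p` whose proper powers have trace zero -/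
theorem finrank_fixed {p : ℕ} (hp : p.Prime) [CharZero K] {W : Type} [AddCommGroup W] [Module K W] [FiniteDimensional K W]
    (hW : Module.finrank K W = p * p) (Q : Module.End K W) (hQ : Q ^ p = 1)
    (ht : ∀ k, 0 < k → k < p → LinearMap.trace K W (Q ^ k) = 0) :
    Module.finrank K (LinearMap.ker (Q - 1)) = p := by
  have hpK : (p : K) ≠ 0 := Nat.cast_ne_zero.2 hp.ne_zero
  let P : Module.End K W := (p : K)⁻¹ • ∑ k ∈ Finset.range p, Q ^ k
  have hmem : ∀ w : W, w ∈ LinearMap.ker (Q - 1) ↔ Q w = w := by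
    intro w
    rw [LinearMap.mem_ker, LinearMap.sub_apply, Module.End.one_apply, sub_eq_zero]
  have hproj : LinearMap.IsProj (LinearMap.ker (Q - 1)) P := by
    constructor
    · intro w
      rw [hmem]
      have h1 : Q * ∑ k ∈ Finset.range p, Q ^ k = ∑ k ∈ Finset.range p, Q ^ k := by
        have h2 := Finset.sum_range_succ (fun k => Q ^ k) p
        rw [Finset.sum_range_succ', hQ, pow_zero, add_left_inj] at h2
        conv_rhs => rw [← h2]
        rw [Finset.mul_sum]
        refine Finset.sum_congr rfl fun k _ => ?_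
        rw [pow_succ']
      have h3 : Q * P = P := by
        change Q * ((p : K)⁻¹ • ∑ k ∈ Finset.range p, Q ^ k) = (p : K)⁻¹ • ∑ k ∈ Finset.range p, Q ^ k
        rw [mul_smul_comm, h1]
      exact LinearMap.congr_fun h3 w
    · intro w hw
      rw [hmem] at hw
      have h1 : ∀ k : ℕ, (Q ^ k) w = w := by
        intro k
        induction k with
        | zero => simp
        | succ k ih => rw [pow_succ, Module.End.mul_apply, hw, ih]
      change (p : K)⁻¹ • (∑ k ∈ Finset.range p, Q ^ k) w = w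
      rw [LinearMap.sum_apply, Finset.sum_congr rfl (fun k _ => h1 k), Finset.sum_const, Finset.card_range,
        ← Nat.cast_smul_eq_nsmul K, smul_smul, inv_mul_cancel₀ hpK, one_smul]
  have h1 := hproj.trace
  have h2 : LinearMap.trace K W P = (p : K) := by
    change LinearMap.trace K W ((p : K)⁻¹ • ∑ k ∈ Finset.range p, Q ^ k) = p
    rw [map_smul, map_sum]
    have h3 : ∑ k ∈ Finset.range p, LinearMap.trace K W (Q ^ k) = (p : K) * p := by
      rw [Finset.sum_eq_single 0]
      · rw [pow_zero, LinearMap.trace_one, hW, Nat.cast_mul]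
      · intro k hk hk0
        exact ht k (Nat.pos_of_ne_zero hk0) (Finset.mem_range.1 hk)
      · intro h
        exact absurd (Finset.mem_range.2 hp.pos) h
    rw [h3, smul_eq_mul, ← mul_assoc, inv_mul_cancel₀ hpK, one_mul]
  rw [h2] at h1
  exact (Nat.cast_injective h1).symm

/-- an inverse of an operator whose power is a nonzero scalar -/
theorem op_inv {p : ℕ} (hp : 0 < p) {R : Type} [Ring R] [Algebra K R] (X : R) (a : K) (ha : a ≠ 0) (hX : X ^ p = a • (1 : R)) :
    ∃ X' : R, X' * X = 1 ∧ X * X' = 1 ∧ X' ^ p = a⁻¹ • (1 : R) := by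
  have h1 : X ^ (p - 1) * X = a • (1 : R) := by
    rw [← pow_succ, Nat.sub_add_cancel hp, hX]
  have h2 : X * X ^ (p - 1) = a • (1 : R) := by
    rw [← pow_succ', Nat.sub_add_cancel hp, hX]
  refine ⟨a⁻¹ • X ^ (p - 1), ?_, ?_, ?_⟩
  · rw [smul_mul_assoc, h1, smul_smul, inv_mul_cancel₀ ha, one_smul]
  · rw [mul_smul_comm, h2, smul_smul, inv_mul_cancel₀ ha, one_smul]
  · rw [_root_.smul_pow, ← pow_mul, mul_comm (p - 1) p, pow_mul, hX, _root_.smul_pow, one_pow, smul_smul, inv_pow,
      ← pow_sub_one_mul hp.ne' a, mul_inv, mul_right_comm, inv_mul_cancel₀ (pow_ne_zero _ ha), one_mul]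

end

theorem rt : S_RS → S_RT := by
  intro hRS p _ hp2 K _ _ ζ hζ a b c ha hb hc h1 h2
  obtain ⟨-, -, -, -, -, sq, -, -, key, rep⟩ := hRS p hp2 K ζ hζ
  have hp := (Fact.out (p := p.Prime))
  have hodd := hp.odd_of_ne_two hp2
  have hζ0 : ζ ≠ 0 := hζ.ne_zero hp.ne_zero
  obtain ⟨A₁, B₁, hA1, hB1, hBA1⟩ := rep _ _ (div_ne_zero ha hc) (div_ne_zero hb hc) h1
  obtain ⟨A₂, B₂, hA2, hB2, hBA2⟩ := rep _ _ (mul_ne_zero ha hc) (mul_ne_zero hb hc) h2
  obtain ⟨A₁', ha1, ha1', ha1p⟩ := op_inv hp.pos A₁ _ (div_ne_zero ha hc) hA1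
  obtain ⟨A₂', ha2, ha2', ha2p⟩ := op_inv hp.pos A₂ _ (mul_ne_zero ha hc) hA2
  obtain ⟨B₂', hb2, hb2', hb2p⟩ := op_inv hp.pos B₂ _ (mul_ne_zero hb hc) hB2
  -- relations
  have r1 : A₂' * B₂ = ζ • (B₂ * A₂') := by
    have h3 : A₂' * (B₂ * A₂) * A₂' = A₂' * (ζ • (A₂ * B₂)) * A₂' := by rw [hBA2]
    rw [mul_assoc, mul_assoc, ha2', mul_one, mul_smul_comm, smul_mul_assoc, ← mul_assoc A₂', ha2, one_mul] at h3
    exact h3
  have r2 : A₂ * B₂' = ζ • (B₂' * A₂) := by
    have h3 : B₂' * (B₂ * A₂) * B₂' = B₂' * (ζ • (A₂ * B₂)) * B₂' := by rw [hBA2]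
    rw [← mul_assoc B₂', hb2, one_mul, mul_smul_comm, smul_mul_assoc, mul_assoc B₂' (A₂ * B₂), mul_assoc A₂, hb2', mul_one] at h3
    exact h3
  have r3 : B₂' * A₂' = ζ • (A₂' * B₂') := by
    have h3 : A₂' * (A₂ * B₂') * A₂' = A₂' * (ζ • (B₂' * A₂)) * A₂' := by rw [r2]
    rw [← mul_assoc A₂', ha2, one_mul, mul_smul_comm, smul_mul_assoc, mul_assoc A₂' (B₂' * A₂), mul_assoc B₂', ha2', mul_one] at h3
    exact h3
  let A := TensorProduct.map A₁ A₂
  let B := TensorProduct.map B₁ B₂
  let U := TensorProduct.map A₁ A₂'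
  let U' := TensorProduct.map A₁' A₂
  let S := TensorProduct.map B₁ B₂'
  have hAp : A ^ p = (a ^ 2) • (1 : Module.End K ((Fin p → K) ⊗[K] (Fin p → K))) := by
    change (TensorProduct.map A₁ A₂) ^ p = _
    rw [TensorProduct.map_pow, hA1, hA2, TensorProduct.map_smul_left, TensorProduct.map_smul_right, smul_smul,
      TensorProduct.map_one]
    congr 1
    field_simp
  have hBp : B ^ p = (b ^ 2) • (1 : Module.End K ((Fin p → K) ⊗[K] (Fin p → K))) := by
    change (TensorProduct.map B₁ B₂) ^ p = _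
    rw [TensorProduct.map_pow, hB1, hB2, TensorProduct.map_smul_left, TensorProduct.map_smul_right, smul_smul,
      TensorProduct.map_one]
    congr 1
    field_simp
  have hBA : B * A = (ζ ^ 2) • (A * B) := by
    change TensorProduct.map B₁ B₂ * TensorProduct.map A₁ A₂ = _ • (TensorProduct.map A₁ A₂ * TensorProduct.map B₁ B₂)
    rw [← TensorProduct.map_mul, ← TensorProduct.map_mul, hBA1, hBA2, TensorProduct.map_smul_left, TensorProduct.map_smul_right,
      smul_smul, pow_two]
  have hUU : U' * U = 1 := by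
    change TensorProduct.map A₁' A₂ * TensorProduct.map A₁ A₂' = _
    rw [← TensorProduct.map_mul, ha1, ha2', TensorProduct.map_one]
  have hUU' : U * U' = 1 := by
    change TensorProduct.map A₁ A₂' * TensorProduct.map A₁' A₂ = _
    rw [← TensorProduct.map_mul, ha1', ha2, TensorProduct.map_one]
  have hUA : U * A = A * U := by
    change TensorProduct.map A₁ A₂' * TensorProduct.map A₁ A₂ = TensorProduct.map A₁ A₂ * TensorProduct.map A₁ A₂'
    rw [← TensorProduct.map_mul, ← TensorProduct.map_mul, ha2, ha2']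
  have hUB : U * B = B * U := by
    change TensorProduct.map A₁ A₂' * TensorProduct.map B₁ B₂ = TensorProduct.map B₁ B₂ * TensorProduct.map A₁ A₂'
    rw [← TensorProduct.map_mul, ← TensorProduct.map_mul, r1, hBA1, TensorProduct.map_smul_left, TensorProduct.map_smul_right]
  have hSA : S * A = A * S := by
    change TensorProduct.map B₁ B₂' * TensorProduct.map A₁ A₂ = TensorProduct.map A₁ A₂ * TensorProduct.map B₁ B₂'
    rw [← TensorProduct.map_mul, ← TensorProduct.map_mul, r2, hBA1, TensorProduct.map_smul_left, TensorProduct.map_smul_right]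
  have hSB : S * B = B * S := by
    change TensorProduct.map B₁ B₂' * TensorProduct.map B₁ B₂ = TensorProduct.map B₁ B₂ * TensorProduct.map B₁ B₂'
    rw [← TensorProduct.map_mul, ← TensorProduct.map_mul, hb2, hb2']
  have hSU : S * U = (ζ ^ 2) • (U * S) := by
    change TensorProduct.map B₁ B₂' * TensorProduct.map A₁ A₂' = _ • (TensorProduct.map A₁ A₂' * TensorProduct.map B₁ B₂')
    rw [← TensorProduct.map_mul, ← TensorProduct.map_mul, hBA1, r3, TensorProduct.map_smul_left, TensorProduct.map_smul_right,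
      smul_smul, pow_two]
  have hSp : S ^ p = ((b / c) * (b * c)⁻¹) • (1 : Module.End K ((Fin p → K) ⊗[K] (Fin p → K))) := by
    change (TensorProduct.map B₁ B₂') ^ p = _
    rw [TensorProduct.map_pow, hB1, hb2p, TensorProduct.map_smul_left, TensorProduct.map_smul_right, smul_smul,
      TensorProduct.map_one]
  have hU'p : U' ^ p = ((a / c)⁻¹ * (a * c)) • (1 : Module.End K ((Fin p → K) ⊗[K] (Fin p → K))) := by
    change (TensorProduct.map A₁' A₂) ^ p = _
    rw [TensorProduct.map_pow, ha1p, hA2, TensorProduct.map_smul_left, TensorProduct.map_smul_right, smul_smul,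
      TensorProduct.map_one]
  -- the operator `Q`
  let Q := U' * S
  have hSU' : S * U' = (ζ ^ 2)⁻¹ • (U' * S) := by
    have h3 : U' * (S * U) * U' = U' * ((ζ ^ 2) • (U * S)) * U' := by rw [hSU]
    rw [mul_assoc, mul_assoc S, hUU', mul_one, mul_smul_comm, smul_mul_assoc, ← mul_assoc U' U, hUU, one_mul] at h3
    rw [h3, smul_smul, inv_mul_cancel₀ (pow_ne_zero 2 hζ0), one_smul]
  have hQU : Q * U = (ζ ^ 2) • (U * Q) := by
    change U' * S * U = _ • (U * (U' * S))
    rw [mul_assoc, hSU, mul_smul_comm, ← mul_assoc U' U, hUU, ← mul_assoc U U', hUU']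
  have hQp : Q ^ p = 1 := by
    change (U' * S) ^ p = 1
    rw [tw_mul_pow U' S _ hSU', hU'p, hSp, smul_mul_smul_comm, one_mul, smul_smul]
    obtain ⟨m, hm⟩ := hodd
    have h3 : p * (p - 1) / 2 = p * m := by
      rw [hm, Nat.add_sub_cancel, mul_comm (2 * m + 1) (2 * m), mul_assoc, Nat.mul_div_cancel_left _ (by norm_num)]
      ring
    rw [h3, pow_mul, inv_pow, ← pow_mul ζ, mul_comm 2 p, pow_mul ζ, hζ.pow_eq_one, one_pow, inv_one, one_pow, one_mul]
    have h4 : (a / c)⁻¹ * (a * c) * (b / c * (b * c)⁻¹) = 1 := by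
      field_simp
    rw [h4, one_smul]
  have hQA : Commute Q A := by
    have h3 : Commute U' A := by
      have h4 : Commute U A := hUA
      change U' * A = A * U'
      calc U' * A = U' * A * (U * U') := by rw [hUU', mul_one]
        _ = U' * (A * U) * U' := by simp only [mul_assoc]
        _ = U' * (U * A) * U' := by rw [hUA]
        _ = (U' * U) * A * U' := by simp only [mul_assoc]
        _ = A * U' := by rw [hUU, one_mul]
    exact h3.mul_left hSA
  have hQB : Commute Q B := by
    have h3 : Commute U' B := by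
      change U' * B = B * U'
      calc U' * B = U' * B * (U * U') := by rw [hUU', mul_one]
        _ = U' * (B * U) * U' := by simp only [mul_assoc]
        _ = U' * (U * B) * U' := by rw [hUB]
        _ = (U' * U) * B * U' := by simp only [mul_assoc]
        _ = B * U' := by rw [hUU, one_mul]
    exact h3.mul_left hSB
  have hζ2 : IsPrimitiveRoot (ζ ^ 2) p := hζ.pow_of_coprime 2 (by
    rw [Nat.coprime_two_left]
    exact hodd)
  have htr : ∀ k, 0 < k → k < p → LinearMap.trace K _ (Q ^ k) = 0 := by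
    intro k hk hkp
    refine trace_zero (Q ^ k) U U' ((ζ ^ 2) ^ k) (hζ2.pow_ne_one_of_pos_of_lt hk.ne' hkp) hUU hUU' ?_
    exact tw_pow U Q _ hQU k
  have hdim : Module.finrank K ((Fin p → K) ⊗[K] (Fin p → K)) = p * p := by
    rw [Module.finrank_tensorProduct, Module.finrank_fin_fun]
  have hfin := finrank_fixed hp hdim Q hQp htr
  -- the restrictions
  have hinv : ∀ X : Module.End K ((Fin p → K) ⊗[K] (Fin p → K)), Commute Q X → ∀ w ∈ LinearMap.ker (Q - 1), X w ∈ LinearMap.ker (Q - 1) := by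
    intro X hX w hw
    rw [LinearMap.mem_ker, LinearMap.sub_apply, Module.End.one_apply, sub_eq_zero] at hw ⊢
    have h3 : Q (X w) = X (Q w) := LinearMap.congr_fun hX.eq w
    rw [h3, hw]
  have hpw : ∀ (X : Module.End K ((Fin p → K) ⊗[K] (Fin p → K))) (hX : Commute Q X) (d : K), X ^ p = d • 1 →
      (X.restrict (hinv X hX)) ^ p = d • (1 : Module.End K (LinearMap.ker (Q - 1))) := by
    intro X hX d hd
    have h3 : ∀ n : ℕ, ∀ w : LinearMap.ker (Q - 1), (((X.restrict (hinv X hX)) ^ n) w : (Fin p → K) ⊗[K] (Fin p → K)) = (X ^ n) w := by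
      intro n
      induction n with
      | zero => intro w; rfl
      | succ n ih =>
        intro w
        rw [pow_succ, pow_succ, Module.End.mul_apply, Module.End.mul_apply, ih]
        rfl
    ext1 w
    apply Subtype.ext
    rw [h3, hd]
    rfl
  refine sq a b ha hb ?_
  refine key (LinearMap.ker (Q - 1)) hfin (A.restrict (hinv A hQA)) (B.restrict (hinv B hQB)) (a ^ 2) (b ^ 2) (ζ ^ 2)
    (pow_ne_zero 2 ha) (pow_ne_zero 2 hb) hζ2 (hpw A hQA _ hAp) (hpw B hQB _ hBp) ?_
  ext1 w
  apply Subtype.ext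
  exact LinearMap.congr_fun hBA (w : (Fin p → K) ⊗[K] (Fin p → K))

end Pool.Agent.Q198.CJ
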