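import Pool.Agent.Q198.CJ.RS3

/-!
# Project CJ, job RS: elementary properties of the norms from `K[X] / (X^p - a)`
-/

set_option autoImplicit false

namespace Pool.Agent.Q198.CJ

open Polynomial Pool.Agent.Q7.CJ

section

variable {p : ℕ} {K : Type} [Field K]

/-- transport of operators to `K^p` -/
theorem transport (V : Type) [AddCommGroup V] [Module K V] [Module.Finite K V] (hV : Module.finrank K V = p)
    (A B : Module.End K V) (a b ζ : K)
    (hA : A ^ p = a • (1 : Module.End K V)) (hB : B ^ p = b • (1 : Module.End K V)) (hBA : B * A = ζ • (A * B)) :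
    ∃ A B : (Fin p → K) →ₗ[K] (Fin p → K),
    A ^ p = a • (1 : (Fin p → K) →ₗ[K] (Fin p → K)) ∧ B ^ p = b • (1 : (Fin p → K) →ₗ[K] (Fin p → K)) ∧ B * A = ζ • (A * B) := by
  obtain ⟨e⟩ := FiniteDimensional.nonempty_linearEquiv_of_finrank_eq (R := K) (M := V) (M' := Fin p → K)
    (by rw [hV, Module.finrank_fin_fun])
  let c := LinearEquiv.conjAlgEquiv K e
  refine ⟨c A, c B, ?_, ?_, ?_⟩
  · rw [← map_pow, hA, map_smul, map_one]
  · rw [← map_pow, hB, map_smul, map_one]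
  · rw [← map_mul, hBA, map_smul, map_mul]

theorem rho_pow (a ξ : K) (h : ξ ^ p = 1) (k : ℕ) (z : Ra p a) :
    ((rho a ξ h).toLinearMap ^ k) z = rho a (ξ ^ k) (pow_unity h k) z := by
  induction k with
  | zero =>
    have h6 : rho a (ξ ^ 0) (pow_unity h 0) z = rho a 1 (one_pow p) z := by
      congr 2
      rw [pow_zero]
    rw [h6, rho_one, pow_zero, Module.End.one_apply]
  | succ k ih =>
    rw [pow_succ', Module.End.mul_apply, ih]
    change rho a ξ h (rho a (ξ ^ k) (pow_unity h k) z) = _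
    rw [rho_rho a ξ (ξ ^ k) h (pow_unity h k) (by rw [← pow_succ']; exact pow_unity h (k + 1))]
    congr 2
    rw [pow_succ']

theorem rho_pow_p (a ξ : K) (h : ξ ^ p = 1) : (rho a ξ h).toLinearMap ^ p = 1 := by
  ext z
  rw [rho_pow]
  have h6 : rho a (ξ ^ p) (pow_unity h p) z = rho a 1 (one_pow p) z := by
    congr 2
  rw [h6, rho_one, Module.End.one_apply]

/-- the operators given by a norm -/
theorem keyB [Fact p.Prime] [CharZero K] (ζ : K) (hζ : IsPrimitiveRoot ζ p) (a b : K) (h : Nr p a b) :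
    ∃ A B : (Fin p → K) →ₗ[K] (Fin p → K),
    A ^ p = a • (1 : (Fin p → K) →ₗ[K] (Fin p → K)) ∧ B ^ p = b • (1 : (Fin p → K) →ₗ[K] (Fin p → K)) ∧ B * A = ζ • (A * B) := by
  have hp := (Fact.out (p := p.Prime))
  have hζ0 : ζ ≠ 0 := hζ.ne_zero hp.ne_zero
  have hi : ζ⁻¹ ^ p = 1 := by rw [inv_pow, hζ.pow_eq_one, inv_one]
  by_cases H : ∃ c : K, c ^ p = a
  · obtain ⟨c, hc⟩ := H
    have := finite_Ra (p := p) b
    refine transport (Ra p b) (finrank_Ra b) (c • (rho b ζ⁻¹ hi).toLinearMap)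
      (Algebra.lmul K (Ra p b) (AdjoinRoot.root (X ^ p - C b : K[X]))) a b ζ ?_ ?_ ?_
    · rw [_root_.smul_pow, rho_pow_p, hc]
    · rw [← map_pow, root_pow, (Algebra.lmul K (Ra p b)).commutes, Algebra.algebraMap_eq_smul_one]
    · ext z
      change AdjoinRoot.root (X ^ p - C b : K[X]) * (c • rho b ζ⁻¹ hi z) =
        ζ • (c • rho b ζ⁻¹ hi (AdjoinRoot.root (X ^ p - C b : K[X]) * z))
      rw [map_mul, rho_root, smul_mul_assoc, smul_comm ζ c, smul_smul ζ, mul_inv_cancel₀ hζ0, one_smul, mul_smul_comm]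
  · have Hi : Irreducible (X ^ p - C a : K[X]) := X_pow_sub_C_irreducible_of_prime hp (fun c hc => H ⟨c, hc⟩)
    have := finite_Ra (p := p) a
    obtain ⟨t, ht⟩ := h
    have h1 : ζ ^ p = 1 := hζ.pow_eq_one
    refine transport (Ra p a) (finrank_Ra a) (Algebra.lmul K (Ra p a) (AdjoinRoot.root (X ^ p - C a : K[X])))
      (Algebra.lmul K (Ra p a) t * (rho a ζ h1).toLinearMap) a b ζ ?_ ?_ ?_
    · rw [← map_pow, root_pow, (Algebra.lmul K (Ra p a)).commutes, Algebra.algebraMap_eq_smul_one]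
    · have hk : ∀ k : ℕ, ∀ z : Ra p a, ((Algebra.lmul K (Ra p a) t * (rho a ζ h1).toLinearMap) ^ k) z =
          (∏ i ∈ Finset.range k, rho a (ζ ^ i) (pow_unity h1 i) t) * rho a (ζ ^ k) (pow_unity h1 k) z := by
        intro k
        induction k with
        | zero =>
          intro z
          have h6 : rho a (ζ ^ 0) (pow_unity h1 0) z = rho a 1 (one_pow p) z := by
            congr 2
            rw [pow_zero]
          rw [h6, rho_one, pow_zero, Module.End.one_apply, Finset.prod_range_zero, one_mul]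
        | succ k ih =>
          intro z
          rw [pow_succ, Module.End.mul_apply, ih]
          change _ * rho a (ζ ^ k) (pow_unity h1 k) (t * rho a ζ h1 z) = _
          rw [map_mul, rho_rho a (ζ ^ k) ζ (pow_unity h1 k) h1 (by rw [← pow_succ]; exact pow_unity h1 (k + 1)),
            Finset.prod_range_succ, mul_assoc]
          congr 4
          rw [pow_succ]
      ext z
      rw [hk p z, prod_norm a ζ hζ Hi t, ht]
      have h6 : rho a (ζ ^ p) (pow_unity h1 p) z = rho a 1 (one_pow p) z := by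
        congr 2
      rw [h6, rho_one, ← Algebra.smul_def]
      rfl
    · ext z
      change t * rho a ζ h1 (AdjoinRoot.root (X ^ p - C a : K[X]) * z) = ζ • (AdjoinRoot.root (X ^ p - C a : K[X]) * (t * rho a ζ h1 z))
      rw [map_mul, rho_root, smul_mul_assoc, mul_smul_comm, mul_left_comm]

theorem nr_symm [Fact p.Prime] [CharZero K] (ζ : K) (hζ : IsPrimitiveRoot ζ p) (a b : K) (ha : a ≠ 0) (hb : b ≠ 0)
    (h : Nr p a b) : Nr p b a := by
  obtain ⟨A, B, hA, hB, hBA⟩ := keyB ζ hζ a b h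
  exact keyA (Fin p → K) (Module.finrank_fin_fun K) A B a b ζ ha hb hζ hA hB hBA

theorem nr_mul (a b c : K) (h1 : Nr p a b) (h2 : Nr p a c) : Nr p a (b * c) := by
  obtain ⟨s, hs⟩ := h1
  obtain ⟨t, ht⟩ := h2
  exact ⟨s * t, by rw [map_mul, hs, ht]⟩

theorem nr_one (a : K) : Nr p a 1 := ⟨1, map_one _⟩

theorem nr_scal [Fact p.Prime] (a b t : K) (h : Nr p a b) : Nr p a (b * t ^ p) := by
  obtain ⟨s, hs⟩ := h
  exact ⟨s * algebraMap K (Ra p a) t, by rw [map_mul, hs, norm_cst]⟩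

theorem nr_npow (a b : K) (h : Nr p a b) (n : ℕ) : Nr p a (b ^ n) := by
  obtain ⟨s, hs⟩ := h
  exact ⟨s ^ n, by rw [map_pow, hs]⟩

theorem nr_inv [Fact p.Prime] (a b : K) (hb : b ≠ 0) (h : Nr p a b) : Nr p a b⁻¹ := by
  have h1 := nr_scal a _ b⁻¹ (nr_npow a b h (p - 1))
  have hp := (Fact.out (p := p.Prime))
  have h2 : b ^ (p - 1) * b⁻¹ ^ p = b⁻¹ := by
    rw [inv_pow, mul_inv_eq_iff_eq_mul₀ (pow_ne_zero _ hb), eq_inv_mul_iff_mul_eq₀ hb, ← pow_succ']
    congr 1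
    have := hp.pos
    omega
  rwa [h2] at h1

theorem nr_zpow [Fact p.Prime] (a b : K) (hb : b ≠ 0) (h : Nr p a b) (n : ℤ) : Nr p a (b ^ n) := by
  cases n with
  | ofNat n => rw [Int.ofNat_eq_natCast, zpow_natCast]; exact nr_npow a b h n
  | negSucc n => rw [zpow_negSucc]; exact nr_inv a _ (pow_ne_zero _ hb) (nr_npow a b h _)

theorem nr_zz [Fact p.Prime] [CharZero K] (ζ : K) (hζ : IsPrimitiveRoot ζ p) (a b : K) (ha : a ≠ 0) (hb : b ≠ 0)
    (h : Nr p a b) (i j : ℤ) : Nr p (a ^ i) (b ^ j) := by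
  have h1 := nr_zpow a b hb h j
  have h2 := nr_symm ζ hζ a _ ha (zpow_ne_zero _ hb) h1
  have h3 := nr_zpow _ a ha h2 i
  exact nr_symm ζ hζ _ _ (zpow_ne_zero _ hb) (zpow_ne_zero _ ha) h3

theorem nr_ss [Fact p.Prime] [CharZero K] (ζ : K) (hζ : IsPrimitiveRoot ζ p) (a b s t : K) (ha : a ≠ 0) (hb : b ≠ 0)
    (hs : s ≠ 0) (ht : t ≠ 0) (h : Nr p a b) : Nr p (a * s ^ p) (b * t ^ p) := by
  have h1 := nr_scal a b t h
  have h2 := nr_symm ζ hζ a _ ha (mul_ne_zero hb (pow_ne_zero _ ht)) h1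
  have h3 := nr_scal _ a s h2
  exact nr_symm ζ hζ _ _ (mul_ne_zero hb (pow_ne_zero _ ht)) (mul_ne_zero ha (pow_ne_zero _ hs)) h3

theorem nr_sq [Fact p.Prime] [CharZero K] (hp2 : p ≠ 2) (ζ : K) (hζ : IsPrimitiveRoot ζ p) (a b : K) (ha : a ≠ 0) (hb : b ≠ 0)
    (h : Nr p (a ^ 2) (b ^ 2)) : Nr p a b := by
  have hp := (Fact.out (p := p.Prime))
  obtain ⟨m, hm⟩ := hp.odd_of_ne_two hp2
  have h1 := nr_zz ζ hζ _ _ (pow_ne_zero 2 ha) (pow_ne_zero 2 hb) h ((m + 1 : ℕ) : ℤ) ((m + 1 : ℕ) : ℤ)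
  rw [zpow_natCast, zpow_natCast] at h1
  have h2 := nr_ss ζ hζ _ _ a⁻¹ b⁻¹ (pow_ne_zero _ (pow_ne_zero 2 ha)) (pow_ne_zero _ (pow_ne_zero 2 hb)) (inv_ne_zero ha)
    (inv_ne_zero hb) h1
  have h3 : ∀ c : K, c ≠ 0 → (c ^ 2) ^ (m + 1) * c⁻¹ ^ p = c := by
    intro c hc
    rw [inv_pow, ← pow_mul, mul_inv_eq_iff_eq_mul₀ (pow_ne_zero _ hc), ← pow_succ']
    congr 1
    omega
  rwa [h3 a ha, h3 b hb] at h2

theorem nr_self [Fact p.Prime] (hp2 : p ≠ 2) (a : K) : Nr p a a := by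
  have hp := (Fact.out (p := p.Prime))
  have hodd := hp.odd_of_ne_two hp2
  have h1 := norm_sub_root (p := p) a 0
  have h2 := norm_cst (p := p) a (-1)
  refine ⟨AdjoinRoot.root _, ?_⟩
  have h3 : (AdjoinRoot.root (X ^ p - C a : K[X]) : Ra p a) =
      algebraMap K (Ra p a) (-1) * (algebraMap K (Ra p a) 0 - AdjoinRoot.root (X ^ p - C a : K[X])) := by
    rw [map_zero, map_neg, map_one]
    ring
  rw [h3, map_mul, h1, h2, hodd.neg_one_pow, zero_pow hp.ne_zero]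
  ring

theorem nr_steinberg [Fact p.Prime] (a : K) : Nr p a (1 - a) := by
  refine ⟨algebraMap K (Ra p a) 1 - AdjoinRoot.root (X ^ p - C a : K[X]), ?_⟩
  rw [norm_sub_root, one_pow]

end

theorem rs : S_RS := by
  intro p _ hp2 K _ _ ζ hζ
  refine ⟨fun a b ha hb h => nr_symm ζ hζ a b ha hb h, fun a b c _ _ _ h1 h2 => nr_mul a b c h1 h2,
    fun a b c ha hb hc h1 h2 => ?_, fun a b ha hb h i j => nr_zz ζ hζ a b ha hb h i j,
    fun a b s t ha hb hs ht h => nr_ss ζ hζ a b s t ha hb hs ht h, fun a b ha hb h => nr_sq hp2 ζ hζ a b ha hb h,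
    fun a ha => ⟨nr_self hp2 a, nr_one a, nr_symm ζ hζ a 1 ha one_ne_zero (nr_one a)⟩,
    fun a _ _ => nr_steinberg a, ?_, fun a b _ _ h => keyB ζ hζ a b h⟩
  · exact nr_symm ζ hζ _ _ hc (mul_ne_zero ha hb) (nr_mul c a b (nr_symm ζ hζ _ _ ha hc h1) (nr_symm ζ hζ _ _ hb hc h2))
  · intro V _ _ hV A B a b ξ ha hb hξ hA hB hBA
    exact nr_symm ζ hζ _ _ hb ha (keyA V hV A B a b ξ ha hb hξ hA hB hBA)

end Pool.Agent.Q198.CJ
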