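import Pool.Agent.Q7.CJ.Stm

/-!
# Project CJ, job RS, part 1: the rings `K[X] / (X^p - a)`
-/

set_option autoImplicit false

namespace Pool.Agent.Q198.CJ

open Polynomial Pool.Agent.Q7.CJ

section

variable {p : ℕ} {K : Type} [Field K]

/-- the ring `K[X] / (X^p - a)` -/
abbrev Ra (p : ℕ) {K : Type} [Field K] (a : K) : Type := AdjoinRoot (X ^ p - C a : K[X])

theorem root_pow (a : K) : (AdjoinRoot.root (X ^ p - C a : K[X])) ^ p = algebraMap K (Ra p a) a :=
  root_X_pow_sub_C_pow p a

/-- the endomorphism `root ↦ ξ root` -/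
noncomputable def rho (a ξ : K) (h : ξ ^ p = 1) : Ra p a →ₐ[K] Ra p a :=
  AdjoinRoot.liftAlgHom (X ^ p - C a) (Algebra.ofId K (Ra p a)) (ξ • AdjoinRoot.root _) (by
    change aeval _ _ = _
    rw [map_sub, map_pow, aeval_C, aeval_X, _root_.smul_pow, root_pow, h, one_smul, sub_self])

theorem rho_root (a ξ : K) (h : ξ ^ p = 1) :
    rho a ξ h (AdjoinRoot.root (X ^ p - C a : K[X])) = ξ • AdjoinRoot.root (X ^ p - C a : K[X]) := by
  unfold rho
  exact AdjoinRoot.liftAlgHom_root _ (Algebra.ofId K (Ra p a)) ..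

theorem monic_Ra [Fact p.Prime] (a : K) : (X ^ p - C a : K[X]).Monic :=
  monic_X_pow_sub_C _ (Fact.out (p := p.Prime)).ne_zero

theorem ne_Ra [Fact p.Prime] (a : K) : (X ^ p - C a : K[X]) ≠ 0 := (monic_Ra a).ne_zero

theorem finrank_Ra [Fact p.Prime] (a : K) : Module.finrank K (Ra p a) = p := by
  rw [(AdjoinRoot.powerBasis (ne_Ra (p := p) a)).finrank, AdjoinRoot.powerBasis_dim, natDegree_X_pow_sub_C]

theorem finite_Ra [Fact p.Prime] (a : K) : Module.Finite K (Ra p a) :=
  (AdjoinRoot.powerBasis (ne_Ra (p := p) a)).finite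

/-- the norm of a constant -/
theorem norm_cst [Fact p.Prime] (a c : K) : Algebra.norm K (algebraMap K (Ra p a) c) = c ^ p := by
  rw [Algebra.norm_algebraMap, finrank_Ra]

/-- the norm of `c - root` -/
theorem norm_sub_root [Fact p.Prime] (a c : K) :
    Algebra.norm K (algebraMap K (Ra p a) c - AdjoinRoot.root (X ^ p - C a : K[X])) = c ^ p - a := by
  have hf := finite_Ra (p := p) a
  have h1 : (Algebra.lmul K (Ra p a) (AdjoinRoot.root (X ^ p - C a : K[X]))).charpoly = X ^ p - C a := by
    have h2 := LinearMap.minpoly_dvd_charpoly (Algebra.lmul K (Ra p a) (AdjoinRoot.root (X ^ p - C a : K[X])))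
    have h3 : minpoly K (Algebra.lmul K (Ra p a) (AdjoinRoot.root (X ^ p - C a : K[X]))) = X ^ p - C a := by
      rw [minpoly.algHom_eq _ Algebra.lmul_injective, AdjoinRoot.minpoly_root (ne_Ra (p := p) a), (monic_Ra a).leadingCoeff,
        inv_one, map_one, mul_one]
    rw [h3] at h2
    refine eq_of_monic_of_dvd_of_natDegree_le (monic_Ra a) (LinearMap.charpoly_monic _) h2 ?_
    rw [LinearMap.charpoly_natDegree, finrank_Ra, natDegree_X_pow_sub_C]
  have h4 := LinearMap.eval_charpoly (Algebra.lmul K (Ra p a) (AdjoinRoot.root (X ^ p - C a : K[X]))) c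
  rw [h1] at h4
  rw [Algebra.norm_apply, map_sub]
  rw [show (Algebra.lmul K (Ra p a)) (algebraMap K (Ra p a) c) = algebraMap K (Module.End K (Ra p a)) c from
    (Algebra.lmul K (Ra p a)).commutes c, ← h4]
  simp

/-- the ring of a `p`-th power: every number is a norm -/
theorem nr_pow_left [Fact p.Prime] [CharZero K] (a c b : K) (hc : c ≠ 0) (ha : c ^ p = a) : Nr p a b := by
  have hf := finite_Ra (p := p) a
  have hp := (Fact.out (p := p.Prime))
  have hpK : (p : K) ≠ 0 := Nat.cast_ne_zero.2 hp.ne_zero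
  -- the value at `c`
  let φ : Ra p a →ₐ[K] K := AdjoinRoot.liftAlgHom (X ^ p - C a) (Algebra.ofId K K) c (by
    change aeval _ _ = _
    rw [map_sub, map_pow, aeval_C, aeval_X, ha, Algebra.algebraMap_self, RingHom.id_apply, sub_self])
  have hφ : φ (AdjoinRoot.root _) = c := AdjoinRoot.liftAlgHom_root _ (Algebra.ofId K K) ..
  -- an element `e` with `root * e = c e`, `φ e = 1`
  let r : Ra p a := AdjoinRoot.root _
  let s : Ra p a := ∑ i ∈ Finset.range p, r ^ i * algebraMap K _ c ^ (p - 1 - i)
  have hs : (r - algebraMap K _ c) * s = 0 := by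
    have h1 := (Commute.all r (algebraMap K _ c)).mul_geom_sum₂ p
    change (r - algebraMap K _ c) * s = _ at h1
    rw [h1]
    change r ^ p - _ = 0
    rw [show r ^ p = algebraMap K _ a from root_pow _, ← map_pow, ha, sub_self]
  have hφs : φ s = p * c ^ (p - 1) := by
    change φ (∑ i ∈ Finset.range p, r ^ i * algebraMap K _ c ^ (p - 1 - i)) = _
    rw [map_sum]
    have h2 : ∀ i ∈ Finset.range p, φ (r ^ i * algebraMap K _ c ^ (p - 1 - i)) = c ^ (p - 1) := by
      intro i hi
      rw [map_mul, map_pow φ, map_pow φ, show φ r = c from hφ, φ.commutes, Algebra.algebraMap_self, RingHom.id_apply, ← pow_add]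
      congr 1
      have := Finset.mem_range.1 hi
      omega
    rw [Finset.sum_congr rfl h2, Finset.sum_const, Finset.card_range, nsmul_eq_mul]
  have hrs : ∀ v : Ra p a, v * s = φ v • s := by
    intro v
    induction v using AdjoinRoot.induction_on with
    | ih g =>
    have h3 : ∀ n : ℕ, r ^ n * s = (c ^ n) • s := by
      intro n
      induction n with
      | zero => simp
      | succ n ih =>
        rw [pow_succ, mul_assoc, show r * s = algebraMap K _ c * s from by rw [← sub_eq_zero, ← sub_mul, hs], mul_left_comm, ih,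
          ← Algebra.smul_def, smul_smul, pow_succ, mul_comm]
    have h4 : AdjoinRoot.mk (X ^ p - C a : K[X]) g = aeval r g := by
      rw [← AdjoinRoot.aeval_eq]
    rw [h4, show φ (aeval r g) = aeval (φ r) g from (Polynomial.aeval_algHom_apply φ r g).symm, show φ r = c from hφ]
    induction g using Polynomial.induction_on' with
    | add f g hf hg =>
      rw [map_add, add_mul, hf (AdjoinRoot.aeval_eq _).symm, hg (AdjoinRoot.aeval_eq _).symm, map_add, add_smul]
    | monomial n a =>
      rw [aeval_monomial, aeval_monomial, mul_assoc, h3, ← Algebra.smul_def, smul_smul]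
      rfl
  let e : Ra p a := ((b - 1) / (p * c ^ (p - 1))) • s
  refine ⟨1 + e, ?_⟩
  have h5 : Algebra.lmul K (Ra p a) (1 + e) = LinearMap.transvection φ.toLinearMap e := by
    ext v
    rw [LinearMap.transvection.apply]
    change (1 + e) * v = v + φ v • e
    rw [add_mul, one_mul, mul_comm e v]
    change v + v * (((b - 1) / (p * c ^ (p - 1))) • s) = v + φ v • (((b - 1) / (p * c ^ (p - 1))) • s)
    rw [mul_smul_comm, hrs, smul_comm]
  rw [Algebra.norm_apply, h5, LinearMap.transvection.det]
  change 1 + φ (((b - 1) / (p * c ^ (p - 1))) • s) = b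
  rw [map_smul, hφs, smul_eq_mul, div_mul_cancel₀ _ (mul_ne_zero hpK (pow_ne_zero _ hc))]
  ring

end

end Pool.Agent.Q198.CJ
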