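import Pool.Agent.Q198.CJ.RS1

/-!
# Project CJ, job RS, part 2: the norm as a product
-/

set_option autoImplicit false

namespace Pool.Agent.Q198.CJ

open Polynomial Pool.Agent.Q7.CJ

section

variable {p : ℕ} {K : Type} [Field K]

theorem pow_unity {ξ : K} (h : ξ ^ p = 1) (i : ℕ) : (ξ ^ i) ^ p = 1 := by
  rw [← pow_mul, mul_comm, pow_mul, h, one_pow]

theorem prod_norm [Fact p.Prime] (a ξ : K) (hξ : IsPrimitiveRoot ξ p) (H : Irreducible (X ^ p - C a : K[X])) (z : Ra p a) :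
    ∏ i ∈ Finset.range p, rho a (ξ ^ i) (pow_unity hξ.pow_eq_one i) z = algebraMap K (Ra p a) (Algebra.norm K z) := by
  have hp := (Fact.out (p := p.Prime))
  have : NeZero p := ⟨hp.ne_zero⟩
  have := Fact.mk H
  have := finite_Ra (p := p) a
  have hne : (primitiveRoots p K).Nonempty := ⟨ξ, (mem_primitiveRoots hp.pos).2 hξ⟩
  have := isSplittingField_AdjoinRoot_X_pow_sub_C hne H
  have : IsGalois K (AdjoinRoot (X ^ p - C a : K[X])) := isGalois_of_isSplittingField_X_pow_sub_C hne H _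
  have h1 := Algebra.norm_eq_prod_automorphisms (K := K) (L := AdjoinRoot (X ^ p - C a : K[X])) z
  let η : rootsOfUnity p K := rootsOfUnity.mkOfPowEq ξ hξ.pow_eq_one
  have hη : ((η : Kˣ) : K) = ξ := rootsOfUnity.val_mkOfPowEq_coe _ _
  have hb1 : Function.Bijective (fun i : Fin p => η ^ (i : ℕ)) := by
    rw [Nat.bijective_iff_injective_and_card]
    constructor
    · intro i j hij
      have h2 := congrArg (fun u : rootsOfUnity p K => ((u : Kˣ) : K)) hij
      simp only [Subgroup.coe_pow, Units.val_pow_eq_pow_val, hη] at h2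
      exact Fin.ext (hξ.pow_inj i.2 j.2 h2)
    · rw [Nat.card_eq_fintype_card, Fintype.card_fin, hξ.card_rootsOfUnity]
  have hb2 : Function.Bijective (fun i : Fin p => autAdjoinRootXPowSubCEquiv hne H (η ^ (i : ℕ))) :=
    (autAdjoinRootXPowSubCEquiv hne H).bijective.comp hb1
  rw [Finset.prod_range]
  have h3 : ∏ i : Fin p, (autAdjoinRootXPowSubCEquiv hne H (η ^ (i : ℕ))) z =
      ∏ σ : Gal(AdjoinRoot (X ^ p - C a : K[X])/K), σ z :=
    Fintype.prod_bijective _ hb2 _ _ (fun i => rfl)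
  rw [← h3] at h1
  refine Eq.trans ?_ h1.symm
  refine Finset.prod_congr rfl fun i _ => ?_
  have h4 : rho a (ξ ^ (i : ℕ)) (pow_unity hξ.pow_eq_one i) =
      ((autAdjoinRootXPowSubCEquiv hne H (η ^ (i : ℕ)) : AdjoinRoot (X ^ p - C a : K[X]) ≃ₐ[K] AdjoinRoot (X ^ p - C a : K[X])) :
        AdjoinRoot (X ^ p - C a : K[X]) →ₐ[K] AdjoinRoot (X ^ p - C a : K[X])) := by
    refine AdjoinRoot.algHom_ext ?_
    rw [rho_root]
    have h5 := autAdjoinRootXPowSubCEquiv_root hne H (η ^ (i : ℕ))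
    refine Eq.trans ?_ h5.symm
    rw [Subgroup.coe_pow, Units.val_pow_eq_pow_val, hη]
  rw [h4]
  rfl

end

end Pool.Agent.Q198.CJ
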