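import Pool.Agent.Q198.CJ.RS2

/-!
# Project CJ, job RS, part 3: the key lemma
-/

set_option autoImplicit false

namespace Pool.Agent.Q198.CJ

open Polynomial Pool.Agent.Q7.CJ

section

variable {p : ℕ} {K : Type} [Field K]

theorem rho_rho (a ξ ζ : K) (h : ξ ^ p = 1) (h' : ζ ^ p = 1) (h'' : (ξ * ζ) ^ p = 1) (z : Ra p a) :
    rho a ξ h (rho a ζ h' z) = rho a (ξ * ζ) h'' z := by
  have h1 : (rho a ξ h).comp (rho a ζ h') = rho a (ξ * ζ) h'' := by
    refine AdjoinRoot.algHom_ext ?_
    rw [AlgHom.comp_apply, rho_root, rho_root, map_smul, rho_root, smul_smul, mul_comm]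
  exact DFunLike.congr_fun h1 z

theorem rho_one (a : K) (h : (1 : K) ^ p = 1) (z : Ra p a) : rho a 1 h z = z := by
  have h1 : rho a 1 h = AlgHom.id K (Ra p a) := by
    refine AdjoinRoot.algHom_ext ?_
    rw [rho_root, one_smul]
    rfl
  exact DFunLike.congr_fun h1 z

theorem exists_aeval (a : K) (z : Ra p a) : ∃ g : K[X], aeval (AdjoinRoot.root (X ^ p - C a : K[X])) g = z := by
  obtain ⟨g, rfl⟩ := AdjoinRoot.mk_surjective z
  exact ⟨g, AdjoinRoot.aeval_eq g⟩

/-- the representation of `K[X] / (X^p - b)` given by an operator -/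
noncomputable def psi {V : Type} [AddCommGroup V] [Module K V] (b : K) (B : Module.End K V)
    (hB : B ^ p = b • (1 : Module.End K V)) : Ra p b →ₐ[K] Module.End K V :=
  Ideal.Quotient.liftₐ (Ideal.span {(X ^ p - C b : K[X])}) (aeval B) (fun f hf => by
    obtain ⟨g, rfl⟩ := Ideal.mem_span_singleton.1 hf
    rw [map_mul, map_sub, map_pow, aeval_X, aeval_C, hB, Algebra.algebraMap_eq_smul_one, sub_self, zero_mul])

theorem psi_aeval {V : Type} [AddCommGroup V] [Module K V] (b : K) (B : Module.End K V)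
    (hB : B ^ p = b • (1 : Module.End K V)) (g : K[X]) :
    psi b B hB (aeval (AdjoinRoot.root (X ^ p - C b : K[X])) g) = aeval B g := by
  rw [AdjoinRoot.aeval_eq]
  rfl

/-- the key lemma -/
theorem keyA [Fact p.Prime] [CharZero K] (V : Type) [AddCommGroup V] [Module K V] (hV : Module.finrank K V = p)
    (A B : Module.End K V) (a b ξ : K) (_ : a ≠ 0) (hb : b ≠ 0) (hξ : IsPrimitiveRoot ξ p)
    (hA : A ^ p = a • (1 : Module.End K V)) (hB : B ^ p = b • (1 : Module.End K V)) (hBA : B * A = ξ • (A * B)) :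
    Nr p b a := by
  have hp := (Fact.out (p := p.Prime))
  by_cases H : ∃ c : K, c ^ p = b
  · obtain ⟨c, hc⟩ := H
    refine nr_pow_left b c a ?_ hc
    rintro rfl
    rw [zero_pow hp.ne_zero] at hc
    exact hb hc.symm
  · have Hi : Irreducible (X ^ p - C b : K[X]) := X_pow_sub_C_irreducible_of_prime hp (fun c hc => H ⟨c, hc⟩)
    have := Fact.mk Hi
    have hfi := finite_Ra (p := p) b
    have hVf : FiniteDimensional K V := Module.finite_of_finrank_pos (by rw [hV]; exact hp.pos)
    have hVn : Nontrivial V := Module.nontrivial_of_finrank_pos (R := K) (by rw [hV]; exact hp.pos)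
    obtain ⟨v, hv⟩ := exists_ne (0 : V)
    let Φ : Ra p b →ₗ[K] V := (LinearMap.applyₗ v).comp (psi b B hB).toLinearMap
    have hΦ : ∀ z, Φ z = psi b B hB z v := fun z => rfl
    have hinj : Function.Injective Φ := by
      rw [injective_iff_map_eq_zero]
      intro z hz
      by_contra hz0
      have hu : ∃ w : Ra p b, w * z = 1 := ⟨(z : AdjoinRoot (X ^ p - C b : K[X]))⁻¹, inv_mul_cancel₀ hz0⟩
      obtain ⟨w, hw⟩ := hu
      have h1 : psi b B hB (w * z) v = 0 := by
        rw [map_mul, Module.End.mul_apply, ← hΦ z, hz, map_zero]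
      rw [hw, map_one, Module.End.one_apply] at h1
      exact hv h1
    have hsurj : Function.Surjective Φ :=
      (LinearMap.injective_iff_surjective_of_finrank_eq_finrank (by rw [finrank_Ra, hV])).1 hinj
    obtain ⟨γ, hγ⟩ := hsurj (A v)
    have hξ0 : ξ ≠ 0 := hξ.ne_zero hp.ne_zero
    have hi : ξ⁻¹ ^ p = 1 := by rw [inv_pow, hξ.pow_eq_one, inv_one]
    -- `A` is semilinear
    have hAB : A * B = (ξ⁻¹ • B) * A := by
      rw [smul_mul_assoc, hBA, smul_smul, inv_mul_cancel₀ hξ0, one_smul]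
    have hABn : ∀ n : ℕ, A * B ^ n = (ξ⁻¹ • B) ^ n * A := by
      intro n
      induction n with
      | zero => simp
      | succ n ih => rw [pow_succ, ← mul_assoc, ih, mul_assoc, hAB, ← mul_assoc, ← pow_succ]
    have hsem : ∀ z : Ra p b, A * psi b B hB z = psi b B hB (rho b ξ⁻¹ hi z) * A := by
      intro z
      obtain ⟨g, rfl⟩ := exists_aeval b z
      have h2 : rho b ξ⁻¹ hi (aeval (AdjoinRoot.root (X ^ p - C b : K[X])) g) =
          aeval (AdjoinRoot.root (X ^ p - C b : K[X])) (g.comp (C ξ⁻¹ * X)) := by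
        rw [← Polynomial.aeval_algHom_apply, rho_root, aeval_comp, map_mul, aeval_C, aeval_X, ← Algebra.smul_def]
      rw [h2, psi_aeval, psi_aeval, aeval_comp, map_mul, aeval_C, aeval_X, ← Algebra.smul_def]
      clear h2
      induction g using Polynomial.induction_on' with
      | add f g hf hg => rw [map_add, mul_add, hf, hg, map_add, add_mul]
      | monomial n c =>
        rw [aeval_monomial, aeval_monomial, ← Algebra.smul_def, ← Algebra.smul_def, mul_smul_comm, hABn, smul_mul_assoc]
    have hpow : ∀ k : ℕ, (A ^ k) v = psi b B hB (∏ i ∈ Finset.range k, rho b (ξ⁻¹ ^ i) (pow_unity hi i) γ) v := by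
      intro k
      induction k with
      | zero => simp
      | succ k ih =>
        rw [pow_succ', Module.End.mul_apply, ih, ← Module.End.mul_apply, hsem, Module.End.mul_apply, ← hγ, hΦ,
          ← Module.End.mul_apply, ← map_mul, Finset.prod_range_succ', map_prod]
        have h3 : ∀ i ∈ Finset.range k, rho b ξ⁻¹ hi (rho b (ξ⁻¹ ^ i) (pow_unity hi i) γ) =
            rho b (ξ⁻¹ ^ (i + 1)) (pow_unity hi (i + 1)) γ := by
          intro i _
          have h4 : (ξ⁻¹ * ξ⁻¹ ^ i) ^ p = 1 := by rw [← pow_succ']; exact pow_unity hi (i + 1)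
          rw [rho_rho b ξ⁻¹ (ξ⁻¹ ^ i) hi (pow_unity hi i) h4]
          congr 2
          rw [pow_succ']
        rw [Finset.prod_congr rfl h3]
        have h5 : rho b (ξ⁻¹ ^ 0) (pow_unity hi 0) γ = γ := by
          have h6 : rho b (ξ⁻¹ ^ 0) (pow_unity hi 0) γ = rho b 1 (one_pow p) γ := by
            congr 2
            rw [pow_zero]
          rw [h6, rho_one]
        rw [h5]
    have hξi : IsPrimitiveRoot ξ⁻¹ p := hξ.inv
    have h7 := hpow p
    rw [prod_norm b ξ⁻¹ hξi Hi γ, hA, (psi b B hB).commutes] at h7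
    have h8 : a • v = Algebra.norm K γ • v := h7
    have h9 := sub_eq_zero.2 h8
    rw [← sub_smul, smul_eq_zero, or_iff_left hv, sub_eq_zero] at h9
    exact ⟨γ, h9.symm⟩

end

end Pool.Agent.Q198.CJ
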